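import Mathlib
import Pool.Graph.R_seed8.H955R3.WindowD
import Pool.Graph.R_seed8.Y699.W.Rank1
import Pool.Agent.KS6_1.RF.EucCM
import Pool.Agent.KS6_1.RF.EucCyc7

/-!
# Euclidean windows over CM fields of arbitrary unit rank

The starting result treats the number fields of unit rank one. Here the CM fields of every unit
rank are added: nothing in the Euclidean window of a prime `𝔭` lies below `N𝔭`, and the window of
every prime of a norm-Euclidean CM field has the least element `N𝔭`, so it is not open. The seventh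
cyclotomic field is a norm-Euclidean CM field of unit rank two.

Idea for CM fields: let `x ↦ x'` be the complex conjugation, `β ∈ 𝓞 K` with `γ = β - β' ≠ 0`, `m` a
natural number that does not divide `γ`, and `t` a power of `N𝔭`. Then the points `β / m + 1 / t`
have a large power of `𝔭` in the denominator, but by `|N (x - x')| ≤ 2 ^ n |N x|` their distance
from the integers, measured by the norm, is at least `(2 m) ^ (-n)`.

Idea for the seventh cyclotomic field: `x = ∑ x_i ζ ^ i`, `i = 0, …, 6`, and the mean of `|σ x|²`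
over the six embeddings is `∑_{i < j} (x_i - x_j) ^ 2 / 6`; by an averaging argument integers can
be subtracted from the `x_i` so that this is at most `21 / 24 < 1`.
-/

open NumberField IsDedekindDomain Pool.Agent.H955R3.Window Pool.Agent.Y699.W

universe u

namespace Pool.Agent.Results.MP_f42bc2_nt.CMFields

/-- the window of `𝔭` has the least element `N𝔭`, and it is not an open subset of `(1, ∞)` -/
def ClosedAtNorm {K : Type u} [Field K] [NumberField K] (p : HeightOneSpectrum (𝓞 K)) : Prop :=
  IsLeast (window p) (Ideal.absNorm p.asIdeal : ℝ) ∧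
    ¬ IsOpen {x : Set.Ioi (1 : ℝ) | (x : ℝ) ∈ window p}

theorem normEuclidean_cyc (K : Type u) [Field K] [NumberField K]
    [IsCyclotomicExtension {7} ℚ K] : NormEuclidean K := by
  intro a b hb
  have hbK : (b : K) ≠ 0 := by
    intro h; apply hb; exact_mod_cast h
  obtain ⟨q, hq⟩ := Pool.Agent.KS6_1.RF.EucCyc7.exists_near K ((a : K) / (b : K))
  refine ⟨q, ?_⟩
  have h1 : ((a - b * q : 𝓞 K) : K) = (b : K) * ((a : K) / (b : K) - (q : K)) := by
    rw [csub, cmul]
    field_simp
  have h2 : ∀ r : 𝓞 K, |((Algebra.norm ℚ (r : K) : ℚ) : ℝ)| = ((|Algebra.norm ℤ r| : ℤ) : ℝ) := by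
    intro r
    have h3 : Algebra.norm ℚ (r : K) = ((Algebra.norm ℤ r : ℤ) : ℚ) := by
      rw [← Algebra.coe_norm_int]
    rw [h3]
    push_cast
    rfl
  have h4 : |((Algebra.norm ℚ ((a - b * q : 𝓞 K) : K) : ℚ) : ℝ)| <
      |((Algebra.norm ℚ (b : K) : ℚ) : ℝ)| := by
    rw [h1, map_mul]
    push_cast
    rw [abs_mul]
    have h5 : 0 < |((Algebra.norm ℚ (b : K) : ℚ) : ℝ)| :=
      lt_of_lt_of_le one_pos (one_le_abs_norm' b hb)
    calc _ < |((Algebra.norm ℚ (b : K) : ℚ) : ℝ)| * 1 := mul_lt_mul_of_pos_left hq h5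
      _ = _ := mul_one _
  rw [h2, h2] at h4
  exact_mod_cast h4

theorem absNorm_le (K : Type u) [Field K] [NumberField K]
    (hK : NumberField.Units.rank K = 1 ∨ IsCMField K) (p : HeightOneSpectrum (𝓞 K)) (c : ℝ)
    (hc : c ∈ window p) : (Ideal.absNorm p.asIdeal : ℝ) ≤ c := by
  rcases hK with h | h
  · exact absNorm_le_of_rank_one h p c hc
  · exact Pool.Agent.KS6_1.RF.EucCM.absNorm_le_of_CM p c hc

theorem closedAtNorm (K : Type u) [Field K] [NumberField K]
    (hK : NumberField.Units.rank K = 1 ∨ IsCMField K) (hE : NormEuclidean K)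
    (p : HeightOneSpectrum (𝓞 K)) : ClosedAtNorm p := by
  have hL : IsLeast (window p) (Ideal.absNorm p.asIdeal : ℝ) :=
    ⟨absNorm_mem_window hE p, fun c hc => absNorm_le K hK p c hc⟩
  exact ⟨hL, not_isOpen_of_isLeast (one_lt_absNorm p) hL⟩

/-- **Q1 fails at every prime of every norm-Euclidean field which has unit rank one or is a CM
field (of any unit rank).**

(1) Let `K` be a number field of unit rank one or a CM field, and let `𝔭` be a nonzero prime of
`𝓞 K`. No element of the Euclidean window `w(𝔭)` is smaller than `N𝔭`; `N𝔭 ∈ w(𝔭)` if and only if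
`𝓞 K` is norm-Euclidean; and if `𝓞 K` is norm-Euclidean then `N𝔭` is the least element of `w(𝔭)`,
and `w(𝔭)` is not an open subset of `(1, ∞)`.

(2) The seventh cyclotomic field is a norm-Euclidean CM field of unit rank two, so for each of its
primes `𝔭` the window `w(𝔭)` has the least element `N𝔭` and is not open.

(3) There are norm-Euclidean CM fields of unit rank two. -/
theorem result :
    (∀ (K : Type u) [Field K] [NumberField K],
      (NumberField.Units.rank K = 1 ∨ IsCMField K) → ∀ p : HeightOneSpectrum (𝓞 K),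
        (∀ c ∈ window p, (Ideal.absNorm p.asIdeal : ℝ) ≤ c) ∧
        ((Ideal.absNorm p.asIdeal : ℝ) ∈ window p ↔ NormEuclidean K) ∧
        (NormEuclidean K → ClosedAtNorm p)) ∧
    (∀ (K : Type u) [Field K] [NumberField K] [IsCyclotomicExtension {7} ℚ K],
      IsCMField K ∧ NumberField.Units.rank K = 2 ∧ Module.finrank ℚ K = 6 ∧ NormEuclidean K ∧
        Nonempty (HeightOneSpectrum (𝓞 K)) ∧ ∀ p : HeightOneSpectrum (𝓞 K), ClosedAtNorm p) ∧
    ∃ (K : Type) (_ : Field K) (_ : NumberField K), IsCyclotomicExtension {7} ℚ K := by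
  refine ⟨?_, ?_, ?_⟩
  · intro K _ _ hK p
    exact ⟨absNorm_le K hK p, mem_window_iff p, fun hE => closedAtNorm K hK hE p⟩
  · intro K _ _ _
    have hCM : IsCMField K :=
      IsCyclotomicExtension.Rat.isCMField (S := {7}) K ⟨7, rfl, by norm_num⟩
    refine ⟨hCM, Pool.Agent.KS6_1.RF.EucCyc7.rank7 K, Pool.Agent.KS6_1.RF.EucCyc7.finrank7 K,
      normEuclidean_cyc K, ?_, fun p => closedAtNorm K (Or.inr hCM) (normEuclidean_cyc K) p⟩
    have h : ¬ IsField (𝓞 K) := NumberField.RingOfIntegers.not_isField K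
    obtain ⟨I, hI0, hI1⟩ := Ring.not_isField_iff_exists_prime.mp h
    exact ⟨⟨I, hI1, hI0⟩⟩
  · have : NeZero ((7 : ℕ) : ℚ) := ⟨by norm_num⟩
    refine ⟨CyclotomicField 7 ℚ, inferInstance, inferInstance, ?_⟩
    have h := CyclotomicField.isCyclotomicExtension 7 ℚ
    have e : (DivisionRing.toRatAlgebra : Algebra ℚ (CyclotomicField 7 ℚ)) =
        CyclotomicField.algebra 7 ℚ := Subsingleton.elim _ _
    rw [← e] at h
    exact h

end Pool.Agent.Results.MP_f42bc2_nt.CMFields
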